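import Pool.Agent.H49.SZ.Dh

/-!
# Holes at prescribed places: few terms are moved
-/

set_option autoImplicit false

open Filter Topology Set

namespace Pool.Agent.H49.SZ

open Pool.Agent.H49.BP (pc lt_pc pc_mono)
open Pool.Agent.H73.KT (Moved moved_pc le_fin)

/-- the number of the terms in an interval -/
def Inc (q : ℕ → ℝ) (δ K : ℝ) : Prop := ∀ a b : ℝ, 1 ≤ a → a ≤ b → (pc q b : ℝ) - pc q a ≤ (b - a) + K * b ^ δ

theorem rpow3 {x δ : ℝ} (hx : 1 ≤ x) (hδ : 0 ≤ δ) (hδ1 : δ ≤ 1) : (3 * x) ^ δ ≤ 3 * x ^ δ := by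
  rw [Real.mul_rpow (by norm_num) (by linarith)]
  refine mul_le_mul_of_nonneg_right ?_ (Real.rpow_nonneg (by linarith) _)
  calc (3 : ℝ) ^ δ ≤ (3 : ℝ) ^ (1 : ℝ) := Real.rpow_le_rpow_of_exponent_le (by norm_num) hδ1
    _ = 3 := Real.rpow_one 3

namespace Hyp

variable {q P : ℕ → ℝ} {g0 : ℕ} (h : Hyp q P g0) {g g' j : ℕ}

include h

theorem P_ge (hg : g0 ≤ g) : (g : ℝ) ≤ P g := by
  have h1 := h.pow g hg
  have h2 := h.g8 hg
  have h3 : (g : ℝ) ^ 1 ≤ (g : ℝ) ^ 4 := pow_le_pow_right₀ (by linarith) (by norm_num)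
  rw [pow_one] at h3
  linarith

theorem hole_card (hg : g0 ≤ g) {x : ℝ} (hx : P g ≤ x) {K δ : ℝ} (hK : 0 ≤ K) (hδ : 0 ≤ δ) (hδ1 : δ ≤ 1)
    (hinc : Inc q δ K) : (ra q P g : ℝ) - na q P g ≤ 3 / 2 * g + 3 * K * x ^ δ := by
  have h1 := h.P_ge hg
  have h2 := h.g8 hg
  have h3 := h.be_le hg
  have h4 := h.be_ge g
  have h5 := hinc (P g) (be q P g) (by linarith) (by linarith)
  have h6 : (be q P g) ^ δ ≤ (3 * x) ^ δ := Real.rpow_le_rpow (by linarith) (by linarith) hδ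
  have h7 := rpow3 (x := x) (by linarith) hδ hδ1
  have h8 : K * (be q P g) ^ δ ≤ K * (3 * x ^ δ) := mul_le_mul_of_nonneg_left (h6.trans h7) hK
  have e : (ra q P g : ℝ) - na q P g = (pc q (be q P g) : ℝ) - pc q (P g) := rfl
  rw [e]
  linarith

theorem moved_mem {x : ℝ} {n : ℕ} (h1 : q n ≤ x) (h2 : qd q P g0 n ≠ q n) :
    ∃ g, g0 ≤ g ∧ P g ≤ x ∧ na q P g < n ∧ n < ra q P g := by
  by_cases h3 : ∃ g, g0 ≤ g ∧ na q P g < n ∧ n < ra q P g
  · obtain ⟨g, hg, h4, h5⟩ := h3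
    refine ⟨g, hg, ?_, h4, h5⟩
    have h6 := h.na_gt g
    have h7 := h.mono h4
    linarith
  · exact absurd (qd_out h3) h2

theorem moved {K : ℝ} (hK : 0 ≤ K) (hinc : Inc q (1 / 4) K) : Moved q (qd q P g0) := by
  classical
  refine ⟨h.qd_mono, h.le_qd, 2 * (3 / 2 + 3 * K), by positivity, fun x hx => ?_⟩
  have hx0 : 0 < x := by linarith
  set y : ℝ := x ^ (1 / 4 : ℝ) with hy
  have hy1 : 1 ≤ y := Real.one_le_rpow hx (by norm_num)
  have hyy : y * y = √x := by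
    rw [hy, ← Real.rpow_add hx0, Real.sqrt_eq_rpow]
    norm_num
  have hy4 : y ^ 4 = x := by
    rw [hy, ← Real.rpow_natCast, ← Real.rpow_mul hx0.le]
    norm_num
  set s := (Finset.range (⌊y⌋₊ + 1)).filter fun g => g0 ≤ g ∧ P g ≤ x with hs
  set T := s.biUnion fun g => Finset.Ioo (na q P g) (ra q P g) with hT
  have hsub : {n : ℕ | q n ≤ x ∧ qd q P g0 n ≠ q n} ⊆ (T : Set ℕ) := by
    rintro n ⟨h1, h2⟩
    obtain ⟨g, hg, h3, h4, h5⟩ := h.moved_mem h1 h2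
    rw [Finset.mem_coe, hT, Finset.mem_biUnion]
    refine ⟨g, ?_, Finset.mem_Ioo.2 ⟨h4, h5⟩⟩
    rw [hs, Finset.mem_filter, Finset.mem_range]
    refine ⟨Nat.lt_succ_of_le (Nat.le_floor ?_), hg, h3⟩
    by_contra hc
    push Not at hc
    have h6 : y ^ 4 < (g : ℝ) ^ 4 := pow_lt_pow_left₀ hc (by linarith) (by norm_num)
    have h7 := h.pow g hg
    linarith
  have hcard : ∀ g ∈ s, (Finset.Ioo (na q P g) (ra q P g)).card ≤ ⌊(3 / 2 + 3 * K) * y⌋₊ := by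
    intro g hgs
    rw [hs, Finset.mem_filter, Finset.mem_range] at hgs
    refine Nat.le_floor ?_
    have h1 := h.hole_card hgs.2.1 hgs.2.2 hK (by norm_num) (by norm_num) hinc
    have h2 : (g : ℝ) ≤ y := le_trans (by exact_mod_cast Nat.lt_succ_iff.1 hgs.1) (Nat.floor_le (by linarith))
    have h3 : (((Finset.Ioo (na q P g) (ra q P g)).card : ℕ) : ℝ) ≤ (ra q P g : ℝ) - na q P g := by
      rw [Nat.card_Ioo]
      have h4 := h.na_succ hgs.2.1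
      have h5 : ((ra q P g - na q P g - 1 : ℕ) : ℝ) ≤ ((ra q P g - na q P g : ℕ) : ℝ) := by
        exact_mod_cast Nat.sub_le _ _
      rwa [Nat.cast_sub (by omega : na q P g ≤ ra q P g)] at h5
    have h6 : K * y ≤ K * x ^ (1 / 4 : ℝ) := le_rfl
    nlinarith
  have h1 : ({n : ℕ | q n ≤ x ∧ qd q P g0 n ≠ q n}.ncard : ℝ) ≤ T.card := by
    have := ncard_le_ncard hsub T.finite_toSet
    rw [ncard_coe_finset] at this
    exact_mod_cast this
  have h2 : (T.card : ℝ) ≤ (s.card : ℝ) * (⌊(3 / 2 + 3 * K) * y⌋₊ : ℝ) := by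
    exact_mod_cast Finset.card_biUnion_le_card_mul s _ _ hcard
  have h3 : (s.card : ℝ) ≤ 2 * y := by
    have h4 : s.card ≤ ⌊y⌋₊ + 1 := by
      have := Finset.card_filter_le (Finset.range (⌊y⌋₊ + 1)) (fun g => g0 ≤ g ∧ P g ≤ x)
      rwa [Finset.card_range] at this
    have h5 : (s.card : ℝ) ≤ (⌊y⌋₊ : ℝ) + 1 := by exact_mod_cast h4
    have h6 : (⌊y⌋₊ : ℝ) ≤ y := Nat.floor_le (by linarith)
    linarith
  have h4 : (⌊(3 / 2 + 3 * K) * y⌋₊ : ℝ) ≤ (3 / 2 + 3 * K) * y := Nat.floor_le (by positivity)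
  calc ({n : ℕ | q n ≤ x ∧ qd q P g0 n ≠ q n}.ncard : ℝ) ≤ (s.card : ℝ) * (⌊(3 / 2 + 3 * K) * y⌋₊ : ℝ) := h1.trans h2
    _ ≤ 2 * y * ((3 / 2 + 3 * K) * y) := mul_le_mul h3 h4 (by positivity) (by linarith)
    _ = 2 * (3 / 2 + 3 * K) * (y * y) := by ring
    _ = _ := by rw [hyy]

/-- the counting functions differ only in the holes -/
theorem diff {K δ : ℝ} (hK : 0 ≤ K) (hδ : 0 ≤ δ) (hδ1 : δ ≤ 1) (hinc : Inc q δ K)
    (hm : Moved q (qd q P g0)) {x G : ℝ} (hx : 1 ≤ x) (hG0 : 0 ≤ G) (hG : ∀ g : ℕ, g0 ≤ g → P g ≤ x → (g : ℝ) ≤ G) :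
    |(pc (qd q P g0) x : ℝ) - pc q x| ≤ 3 / 2 * G + 3 * K * x ^ δ := by
  have h0 := (moved_pc h.mono h.ge hm x).1
  have h0' : (pc (qd q P g0) x : ℝ) ≤ pc q x := by exact_mod_cast h0
  have hx0 : 0 ≤ x ^ δ := Real.rpow_nonneg (by linarith) _
  rw [abs_sub_comm, abs_of_nonneg (by linarith)]
  have hg' : ∀ n : ℕ, (n : ℝ) + 1 ≤ qd q P g0 n := fun n => (h.ge n).trans (h.le_qd n)
  rcases Nat.lt_or_ge (pc (qd q P g0) x) (pc q x) with h1 | h1
  · set j := pc (qd q P g0) x with hj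
    have h2 : q j ≤ x := (lt_pc h.mono h.ge x j).1 h1
    have h3 : x < qd q P g0 j := by
      by_contra hc
      push Not at hc
      exact lt_irrefl _ ((lt_pc h.qd_mono hg' x j).2 hc)
    obtain ⟨g, hg, h4, h5, h6⟩ := h.moved_mem h2 (by linarith [h3] : qd q P g0 j ≠ q j) 
    have h7 : x < q (ra q P g) := by
      rw [h.qd_in hg h5 h6] at h3
      exact h3.trans (h.fv_lt hg h6)
    have h8 : pc q x ≤ ra q P g := by
      by_contra hc
      push Not at hc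
      have := (lt_pc h.mono h.ge x _).1 hc
      linarith
    have h9 := h.hole_card hg h4 hK hδ hδ1 hinc
    have h10 := hG g hg h4
    have h11 : (pc q x : ℝ) ≤ ra q P g := by exact_mod_cast h8
    have h12 : (na q P g : ℝ) ≤ j := by exact_mod_cast h5.le
    linarith
  · have h2 : (pc q x : ℝ) ≤ pc (qd q P g0) x := by exact_mod_cast h1
    have : 0 ≤ 3 * K * x ^ δ := by positivity
    linarith

end Hyp

end Pool.Agent.H49.SZ
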