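import Pool.Agent.H73.KT.Mov

/-!
# Holes at prescribed places in a sequence with small gaps
-/

set_option autoImplicit false

open Filter Topology Set

namespace Pool.Agent.H49.SZ

open Pool.Agent.H49.BP (pc lt_pc pc_mono)
open Pool.Agent.H73.KT (Moved moved_pc)

/-- the index of the start of the hole of length `g + 1` -/
noncomputable def na (q P : ℕ → ℝ) (g : ℕ) : ℕ := pc q (P g)

/-- the end of the hole -/
noncomputable def be (q P : ℕ → ℝ) (g : ℕ) : ℝ := q (na q P g) + (g + 1)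

/-- the index of the first term after the hole -/
noncomputable def ra (q P : ℕ → ℝ) (g : ℕ) : ℕ := pc q (be q P g)

/-- the new place of the term `j` in the hole `g` -/
noncomputable def fv (q P : ℕ → ℝ) (g j : ℕ) : ℝ :=
  be q P g + (q (ra q P g) - be q P g) * (((j : ℝ) - na q P g - 1) / ((ra q P g : ℝ) - na q P g - 1))

open Classical in
/-- the new sequence -/
noncomputable def qd (q P : ℕ → ℝ) (g0 j : ℕ) : ℝ :=
  if h : ∃ g, g0 ≤ g ∧ na q P g < j ∧ j < ra q P g then fv q P h.choose j else q j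

/-- the hypotheses -/
structure Hyp (q P : ℕ → ℝ) (g0 : ℕ) : Prop where
  mono : StrictMono q
  ge : ∀ n : ℕ, (n : ℝ) + 1 ≤ q n
  big : 8 ≤ g0
  start : q 0 ≤ P g0
  pow : ∀ g : ℕ, g0 ≤ g → (g : ℝ) ^ 4 ≤ P g
  step : ∀ g : ℕ, g0 ≤ g → P g + 2 * g ≤ P (g + 1)
  gap : ∀ g : ℕ, g0 ≤ g → ∀ n, P g ≤ q (n + 1) → q n ≤ P (g + 1) → q (n + 1) - q n ≤ g / 8

namespace Hyp

variable {q P : ℕ → ℝ} {g0 : ℕ} (h : Hyp q P g0) {g g' j : ℕ}

include h

theorem g8 (hg : g0 ≤ g) : (8 : ℝ) ≤ g := by exact_mod_cast h.big.trans hg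

theorem P_mono (hg : g0 ≤ g) (hgg : g ≤ g') : P g ≤ P g' := by
  induction g', hgg using Nat.le_induction with
  | base => exact le_rfl
  | succ k hk ih =>
    have h1 := h.step k (hg.trans hk)
    have h2 := h.g8 (hg.trans hk)
    linarith

theorem na_gt (g : ℕ) : P g < q (na q P g) := by
  by_contra hc
  push Not at hc
  exact lt_irrefl _ ((lt_pc h.mono h.ge (P g) (na q P g)).2 hc)

theorem ra_gt (g : ℕ) : be q P g < q (ra q P g) := by
  by_contra hc
  push Not at hc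
  exact lt_irrefl _ ((lt_pc h.mono h.ge (be q P g) (ra q P g)).2 hc)

theorem na_pos (hg : g0 ≤ g) : 0 < na q P g :=
  (lt_pc h.mono h.ge (P g) 0).2 (h.start.trans (h.P_mono le_rfl hg))

theorem na_le (hg : g0 ≤ g) : q (na q P g) ≤ P g + g / 8 := by
  have h1 := h.na_pos hg
  have h2 : q (na q P g - 1) ≤ P g := (lt_pc h.mono h.ge (P g) _).1 (by unfold na at h1 ⊢; omega)
  have h3 := h.gap g hg (na q P g - 1) (by
    rw [Nat.sub_add_cancel h1]
    exact (h.na_gt g).le) (h2.trans (h.P_mono hg (Nat.le_succ g)))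
  rw [Nat.sub_add_cancel h1] at h3
  linarith

theorem be_le (hg : g0 ≤ g) : be q P g ≤ P g + 3 / 2 * g := by
  have h1 := h.na_le hg
  have h2 := h.g8 hg
  unfold be
  linarith

theorem be_ge (g : ℕ) : P g + (g + 1) ≤ be q P g := by
  have h1 := (h.na_gt g).le
  unfold be
  linarith

theorem na_succ (hg : g0 ≤ g) : na q P g + 1 < ra q P g := by
  have h1 := h.na_le hg
  have h2 := h.g8 hg
  have h3 := h.step g hg
  refine (lt_pc h.mono h.ge (be q P g) _).2 ?_
  have h4 := h.gap g hg (na q P g) (((h.na_gt g).trans (h.mono (Nat.lt_succ_self _))).le) (by linarith)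
  unfold be
  linarith

theorem ra_le (hg : g0 ≤ g) : q (ra q P g) - be q P g ≤ g / 8 := by
  have h0 := h.na_succ hg
  have h1 : 0 < ra q P g := by omega
  have h2 : q (ra q P g - 1) ≤ be q P g := (lt_pc h.mono h.ge (be q P g) _).1 (by unfold ra at h1 ⊢; omega)
  have h3 := h.be_le hg
  have h4 := h.step g hg
  have h5 := h.g8 hg
  have h6 := h.gap g hg (ra q P g - 1) (by
    rw [Nat.sub_add_cancel h1]
    have h7 := h.ra_gt g
    have h8 := h.be_ge g
    linarith) (by linarith)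
  rw [Nat.sub_add_cancel h1] at h6
  linarith

theorem ra_lt (hg : g0 ≤ g) : ra q P g < na q P (g + 1) := by
  have h1 := h.ra_le hg
  have h2 := h.be_le hg
  have h3 := h.step g hg
  have h4 := h.g8 hg
  exact (lt_pc h.mono h.ge (P (g + 1)) _).2 (by linarith)

theorem na_mono (hg : g0 ≤ g) (hgg : g ≤ g') : na q P g ≤ na q P g' :=
  pc_mono h.mono h.ge (h.P_mono hg hgg)

theorem sep (hg : g0 ≤ g) (hgg : g < g') : ra q P g < na q P g' :=
  (h.ra_lt hg).trans_le (h.na_mono (hg.trans (Nat.le_succ g)) hgg)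

theorem uniq (hg : g0 ≤ g) (hg' : g0 ≤ g') (h1 : na q P g ≤ j) (h2 : j ≤ ra q P g) (h3 : na q P g' ≤ j)
    (h4 : j ≤ ra q P g') : g = g' := by
  rcases lt_trichotomy g g' with hc | hc | hc
  · have := h.sep hg hc
    omega
  · exact hc
  · have := h.sep hg' hc
    omega

theorem qd_in (hg : g0 ≤ g) (h1 : na q P g < j) (h2 : j < ra q P g) : qd q P g0 j = fv q P g j := by
  have hex : ∃ g, g0 ≤ g ∧ na q P g < j ∧ j < ra q P g := ⟨g, hg, h1, h2⟩
  unfold qd
  rw [dif_pos hex]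
  obtain ⟨h3, h4, h5⟩ := hex.choose_spec
  rw [h.uniq h3 hg h4.le h5.le h1.le h2.le]

omit h in
theorem qd_out (hn : ¬ ∃ g, g0 ≤ g ∧ na q P g < j ∧ j < ra q P g) : qd q P g0 j = q j := by
  unfold qd
  rw [dif_neg hn]

theorem na_out (hg : g0 ≤ g) : ¬ ∃ g', g0 ≤ g' ∧ na q P g' < na q P g ∧ na q P g < ra q P g' := by
  rintro ⟨g', hg', h1, h2⟩
  have h3 := h.na_succ hg
  have := h.uniq hg hg' le_rfl (by omega) h1.le h2.le
  rw [this] at h1
  exact lt_irrefl _ h1

theorem ra_out (hg : g0 ≤ g) : ¬ ∃ g', g0 ≤ g' ∧ na q P g' < ra q P g ∧ ra q P g < ra q P g' := by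
  rintro ⟨g', hg', h1, h2⟩
  have h3 := h.na_succ hg
  have := h.uniq hg hg' (by omega) le_rfl h1.le h2.le
  rw [this] at h2
  exact lt_irrefl _ h2

theorem den_pos (hg : g0 ≤ g) : (1 : ℝ) ≤ (ra q P g : ℝ) - na q P g - 1 := by
  have h1 : ((na q P g + 1 + 1 : ℕ) : ℝ) ≤ ra q P g := by exact_mod_cast h.na_succ hg
  push_cast at h1
  linarith

theorem fv_end (hg : g0 ≤ g) : fv q P g (ra q P g) = q (ra q P g) := by
  have h1 := h.den_pos hg
  unfold fv
  rw [div_self (by linarith)]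
  ring

omit h in
theorem fv_start (g : ℕ) : fv q P g (na q P g + 1) = be q P g := by
  unfold fv
  push_cast
  rw [show (na q P g : ℝ) + 1 - na q P g - 1 = 0 by ring]
  simp

omit h in
theorem fv_step (g j : ℕ) : fv q P g (j + 1) - fv q P g j =
    (q (ra q P g) - be q P g) / ((ra q P g : ℝ) - na q P g - 1) := by
  unfold fv
  push_cast
  ring

theorem step_bd (hg : g0 ≤ g) : 0 < (q (ra q P g) - be q P g) / ((ra q P g : ℝ) - na q P g - 1) ∧
    (q (ra q P g) - be q P g) / ((ra q P g : ℝ) - na q P g - 1) ≤ g / 8 := by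
  have h1 := h.den_pos hg
  have h2 := h.ra_gt g
  have h3 : 0 < q (ra q P g) - be q P g := by linarith
  refine ⟨by positivity, ?_⟩
  rw [div_le_iff₀ (by linarith)]
  have h4 := h.ra_le hg
  have h5 := h.g8 hg
  nlinarith

theorem fv_ge (hg : g0 ≤ g) (h1 : na q P g < j) : be q P g ≤ fv q P g j := by
  have h2 := h.den_pos hg
  have h3 := h.ra_gt g
  have h4 : ((na q P g + 1 : ℕ) : ℝ) ≤ j := by exact_mod_cast h1
  push_cast at h4
  have h5 : 0 ≤ ((j : ℝ) - na q P g - 1) / ((ra q P g : ℝ) - na q P g - 1) :=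
    div_nonneg (by linarith) (by linarith)
  unfold fv
  nlinarith [mul_nonneg (sub_nonneg.2 h3.le) h5]

theorem fv_lt (hg : g0 ≤ g) (h1 : j < ra q P g) : fv q P g j < q (ra q P g) := by
  have h2 := h.den_pos hg
  have h3 := h.ra_gt g
  have h4 : (j : ℝ) < ra q P g := by exact_mod_cast h1
  have h5 : ((j : ℝ) - na q P g - 1) / ((ra q P g : ℝ) - na q P g - 1) < 1 := by
    rw [div_lt_one (by linarith)]
    linarith
  unfold fv
  nlinarith [mul_pos (sub_pos.2 h3) (sub_pos.2 h5)]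

/-- the steps of the new sequence -/
theorem cases (j : ℕ) :
    (∃ g, g0 ≤ g ∧ na q P g < j ∧ j < ra q P g ∧ 0 < qd q P g0 (j + 1) - qd q P g0 j ∧
      qd q P g0 (j + 1) - qd q P g0 j ≤ g / 8) ∨
    (∃ g, g0 ≤ g ∧ j = na q P g ∧ qd q P g0 (j + 1) = be q P g ∧ qd q P g0 j = q j) ∨
    (qd q P g0 j = q j ∧ qd q P g0 (j + 1) = q (j + 1)) := by
  by_cases h1 : ∃ g, g0 ≤ g ∧ na q P g < j ∧ j < ra q P g
  · obtain ⟨g, hg, h2, h3⟩ := h1
    refine Or.inl ⟨g, hg, h2, h3, ?_⟩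
    have e : qd q P g0 (j + 1) - qd q P g0 j = (q (ra q P g) - be q P g) / ((ra q P g : ℝ) - na q P g - 1) := by
      rw [h.qd_in hg h2 h3, ← fv_step g j]
      congr 1
      rcases Nat.lt_or_ge (j + 1) (ra q P g) with h4 | h4
      · exact h.qd_in hg (by omega) h4
      · have h5 : j + 1 = ra q P g := by omega
        rw [h5, qd_out (h.ra_out hg), h.fv_end hg]
    rw [e]
    exact h.step_bd hg
  · by_cases h2 : ∃ g, g0 ≤ g ∧ j = na q P g
    · obtain ⟨g, hg, h3⟩ := h2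
      refine Or.inr (Or.inl ⟨g, hg, h3, ?_, qd_out h1⟩)
      rw [h3, h.qd_in hg (Nat.lt_succ_self _) (h.na_succ hg), fv_start]
    · refine Or.inr (Or.inr ⟨qd_out h1, qd_out ?_⟩)
      rintro ⟨g, hg, h3, h4⟩
      rcases Nat.lt_or_ge (na q P g) j with h5 | h5
      · exact h1 ⟨g, hg, h5, by omega⟩
      · exact h2 ⟨g, hg, by omega⟩

theorem qd_mono : StrictMono (qd q P g0) := by
  refine strictMono_nat_of_lt_succ fun j => ?_
  rcases h.cases j with ⟨g, _, _, _, h1, _⟩ | ⟨g, hg, h1, h2, h3⟩ | ⟨h1, h2⟩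
  · linarith
  · rw [h2, h3, h1]
    unfold be
    have := Nat.cast_nonneg (α := ℝ) g
    linarith
  · rw [h1, h2]
    exact h.mono (Nat.lt_succ_self j)

theorem le_qd (j : ℕ) : q j ≤ qd q P g0 j := by
  by_cases h1 : ∃ g, g0 ≤ g ∧ na q P g < j ∧ j < ra q P g
  · obtain ⟨g, hg, h2, h3⟩ := h1
    rw [h.qd_in hg h2 h3]
    exact ((lt_pc h.mono h.ge (be q P g) j).1 h3).trans (h.fv_ge hg h2)
  · rw [qd_out h1]

/-- the place of `y` between the `P g` -/
theorem place (hg : g0 ≤ g) {y : ℝ} (h1 : P g0 ≤ y) (h2 : y < P (g + 1)) :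
    ∃ g', g0 ≤ g' ∧ g' ≤ g ∧ P g' ≤ y ∧ y < P (g' + 1) := by
  induction g, hg using Nat.le_induction with
  | base => exact ⟨g0, le_rfl, le_rfl, h1, h2⟩
  | succ k hk ih =>
    rcases lt_or_ge y (P (k + 1)) with h3 | h3
    · obtain ⟨g', h4, h5, h6⟩ := ih h3
      exact ⟨g', h4, h5.trans (Nat.le_succ k), h6⟩
    · exact ⟨k + 1, hk.trans (Nat.le_succ k), le_rfl, h3, h2⟩

/-- the first long gap -/
theorem first (hg : g0 ≤ g) (hbig : P g0 ≤ g) :
    sInf {n | (g : ℝ) + 1 ≤ qd q P g0 (n + 1) - qd q P g0 n} = na q P g ∧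
      (g : ℝ) + 1 ≤ qd q P g0 (na q P g + 1) - qd q P g0 (na q P g) ∧ qd q P g0 (na q P g + 1) = be q P g := by
  have hb : qd q P g0 (na q P g + 1) = be q P g := by
    rw [h.qd_in hg (Nat.lt_succ_self _) (h.na_succ hg), fv_start]
  have hgap : qd q P g0 (na q P g + 1) - qd q P g0 (na q P g) = (g : ℝ) + 1 := by
    rw [hb, qd_out (h.na_out hg)]
    unfold be
    ring
  have h8 := h.g8 hg
  refine ⟨?_, hgap.ge, hb⟩
  refine le_antisymm (Nat.sInf_le hgap.ge) ?_
  have hne : {n | (g : ℝ) + 1 ≤ qd q P g0 (n + 1) - qd q P g0 n}.Nonempty := ⟨_, hgap.ge⟩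
  have hmem := Nat.sInf_mem hne
  set n := sInf {n | (g : ℝ) + 1 ≤ qd q P g0 (n + 1) - qd q P g0 n} with hn
  have hmem' : (g : ℝ) + 1 ≤ qd q P g0 (n + 1) - qd q P g0 n := hmem
  by_contra hlt
  push Not at hlt
  rcases h.cases n with ⟨g', hg', h1, h2, _, h3⟩ | ⟨g', hg', h1, h2, h3⟩ | ⟨h1, h2⟩
  · have h4 : g' < g := by
      by_contra hc
      push Not at hc
      have := h.na_mono hg hc
      omega
    have h5 : (g' : ℝ) < g := by exact_mod_cast h4
    linarith
  · have h4 : g' < g := by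
      by_contra hc
      push Not at hc
      have := h.na_mono hg hc
      omega
    have h5 : (g' : ℝ) < g := by exact_mod_cast h4
    rw [h2, h3, h1] at hmem'
    unfold be at hmem'
    linarith
  · rw [h1, h2] at hmem'
    have h3 : q (n + 1) ≤ q (na q P g) := h.mono.monotone hlt
    have h4 := h.na_le hg
    have h5 := h.step g hg
    rcases lt_or_ge (q (n + 1)) (P g0) with h6 | h6
    · have h7 := h.ge n
      have h9 := Nat.cast_nonneg (α := ℝ) n
      linarith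
    · obtain ⟨g', h7, h9, h10, h11⟩ := h.place hg h6 (by linarith)
      have h12 := h.gap g' h7 n h10 (by
        have := h.mono (Nat.lt_succ_self n)
        simp only [Nat.succ_eq_add_one] at this
        linarith)
      have h13 : (g' : ℝ) ≤ g := by exact_mod_cast h9
      linarith

end Hyp

end Pool.Agent.H49.SZ
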