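import Pool.Agent.H49.KZ.Sys0
import Pool.Agent.H73.KZ.Gap
import Pool.Agent.H73.KZ.Mov
import Pool.Agent.H49.SZ.Cn
import Pool.Agent.H49.SH.First

/-!
# Prescribed first occurrences of the gaps, given the zeros and the constellations
-/

set_option autoImplicit false

open MeasureTheory Filter Topology Set Complex

namespace Pool.Agent.H49.SZ

open Pool.Agent.H49.BP (pc lt_pc)
open Pool.Agent.H49.BZ
open Pool.Agent.H73.KT (Laws tc Moved)
open Pool.Agent.H73.KZ (DV)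
open Pool.Agent.H49.SH (firstAfter)

/-- the inverse function -/
noncomputable def hf (P : ℕ → ℝ) (g0 : ℕ) (x : ℝ) : ℝ := (sInf {g | g0 ≤ g ∧ x < P (g + 1)} : ℕ)

theorem hf_le {P : ℕ → ℝ} {g0 g : ℕ} (hg : g0 ≤ g) {y : ℝ} (hy : y < P (g + 1)) : hf P g0 y ≤ g := by
  unfold hf
  exact_mod_cast Nat.sInf_le (s := {g | g0 ≤ g ∧ y < P (g + 1)}) ⟨hg, hy⟩

theorem hf_lim {P : ℕ → ℝ} {g0 : ℕ} (hP : ∀ g : ℕ, g0 ≤ g → (g : ℝ) ≤ P g)
    (hlog : Tendsto (fun g : ℕ => Real.log (P g) / g) atTop (𝓝 0)) :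
    Tendsto (fun x => hf P g0 x / Real.log x) atTop atTop := by
  refine tendsto_atTop.2 fun K => ?_
  have hK : 0 < |K| + 1 := by positivity
  obtain ⟨N, hN⟩ := eventually_atTop.1 (hlog.eventually (gt_mem_nhds (show (0 : ℝ) < 1 / (2 * (|K| + 1)) by positivity)))
  filter_upwards [eventually_gt_atTop 1, eventually_ge_atTop (∑ g ∈ Finset.range (N + 1), |P (g + 1)|)] with x hx1 hxN
  have hl := Real.log_pos hx1
  have hne : {g | g0 ≤ g ∧ x < P (g + 1)}.Nonempty := by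
    obtain ⟨m, hm⟩ := exists_nat_gt x
    refine ⟨max g0 m, le_max_left _ _, ?_⟩
    have h1 := hP (max g0 m + 1) ((le_max_left _ _).trans (Nat.le_succ _))
    have h2 : (m : ℝ) ≤ (max g0 m : ℕ) := by exact_mod_cast le_max_right g0 m
    push_cast at h1 h2
    linarith
  have hmem := Nat.sInf_mem hne
  have e : hf P g0 x = ((sInf {g | g0 ≤ g ∧ x < P (g + 1)} : ℕ) : ℝ) := rfl
  rw [e]
  set s := sInf {g | g0 ≤ g ∧ x < P (g + 1)} with hs
  obtain ⟨h1, h2⟩ : g0 ≤ s ∧ x < P (s + 1) := hmem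
  have h3 : N + 1 ≤ s := by
    by_contra hc
    push Not at hc
    have h4 : |P (s + 1)| ≤ ∑ g ∈ Finset.range (N + 1), |P (g + 1)| :=
      Finset.single_le_sum (f := fun g => |P (g + 1)|) (fun _ _ => abs_nonneg _) (Finset.mem_range.2 hc)
    have h5 := le_abs_self (P (s + 1))
    linarith
  have h4 := hN (s + 1) (by omega)
  have h5 : (1 : ℝ) ≤ s := by exact_mod_cast (by omega : 1 ≤ s)
  push_cast at h4
  rw [div_lt_iff₀ (by linarith)] at h4
  have h6 : Real.log x ≤ Real.log (P (s + 1)) := Real.log_le_log (by linarith) h2.le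
  rw [le_div_iff₀ hl]
  have h7 : Real.log x ≤ 1 / (2 * (|K| + 1)) * (s + 1) := by linarith
  have h8 : (|K| + 1) * Real.log x ≤ (s + 1) / 2 := by
    have := mul_le_mul_of_nonneg_left h7 hK.le
    refine this.trans (le_of_eq ?_)
    field_simp
  have h9 : K * Real.log x ≤ (|K| + 1) * Real.log x :=
    mul_le_mul_of_nonneg_right (by linarith [le_abs_self K]) hl.le
  linarith

theorem inc_of [Dens] {q : ℕ → ℝ} {δ C : ℝ} (hδ : 0 ≤ δ) (hC0 : 0 ≤ C)
    (hC : ∀ x : ℝ, 1 ≤ x → |(pc q x : ℝ) - MM x| ≤ C * x ^ δ) : Inc q δ (2 * C) := by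
  intro a b ha hab
  have h1 := abs_le.1 (hC a ha)
  have h2 := abs_le.1 (hC b (by linarith))
  have h3 := MM_sub_le ha hab
  have h4 : a ^ δ ≤ b ^ δ := Real.rpow_le_rpow (by linarith) hab hδ
  have h5 := mul_le_mul_of_nonneg_left h4 hC0
  linarith [h1.1, h2.2]

theorem smallErr_pow [Dens] {q : ℕ → ℝ} (hq : StrictMono q) (hg : ∀ j : ℕ, (j : ℝ) + 1 ≤ q j) {C : ℝ}
    (hC : ∀ x : ℝ, 1 ≤ x → |(pc q x : ℝ) - MM x| ≤ C * x ^ (1 / 4 : ℝ)) : SmallErr q := by
  intro σ hσ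
  have hFm : AEStronglyMeasurable (fun x : ℝ => |(pc q x : ℝ) - MM x| * x ^ (-σ - 1)) (volume.restrict (Ioi 1)) := by
    have h1 := (D_meas hq hg).norm
    have h3 : AEStronglyMeasurable (fun x : ℝ => x ^ (-σ - 1)) (volume.restrict (Ioi 1)) := by
      refine ContinuousOn.aestronglyMeasurable ?_ measurableSet_Ioi
      intro x hx
      have hx1 : (1 : ℝ) < x := hx
      exact (Real.continuousAt_rpow_const x _ (Or.inl (by linarith))).continuousWithinAt
    refine (h1.mul h3).congr (Eventually.of_forall fun x => ?_)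
    show ‖_‖ * x ^ (-σ - 1) = _
    rw [D_norm]
  have h1 : IntegrableOn (fun x : ℝ => C * x ^ (1 / 4 - σ - 1 : ℝ)) (Ioi 1) :=
    (integrableOn_Ioi_rpow_of_lt (by linarith) one_pos).const_mul C
  refine Integrable.mono' h1 hFm ?_
  refine (ae_restrict_iff' measurableSet_Ioi).2 (Eventually.of_forall fun x hx => ?_)
  have hx1 : (1 : ℝ) < x := hx
  have hx0 : (0 : ℝ) < x := by linarith
  have h0 : 0 ≤ x ^ (-σ - 1) := Real.rpow_nonneg hx0.le _
  rw [Real.norm_of_nonneg (mul_nonneg (abs_nonneg _) h0)]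
  refine (mul_le_mul_of_nonneg_right (hC x hx1.le) h0).trans (le_of_eq ?_)
  have e2 : (1 / 4 - σ - 1 : ℝ) = 1 / 4 + (-σ - 1) := by ring
  rw [e2, Real.rpow_add hx0, mul_assoc]

/-- Systems with prescribed zeros, prescribed laws of the constellations and prescribed first occurrences of the gaps. -/
theorem firsts {γ : ℕ → ℝ} (h0 : ∀ k, 0 < γ k) (hm : Monotone γ) (hW : Windows γ) {n : Finset ℕ → ℝ → ℝ} (hn : Laws n)
    {P : ℕ → ℝ} (hpow : ∀ᶠ g : ℕ in atTop, (g : ℝ) ^ 4 ≤ P g) (hstep : ∀ᶠ g : ℕ in atTop, P g + 2 * g ≤ P (g + 1))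
    (hlog : Tendsto (fun g : ℕ => Real.log (P g) / g) atTop (𝓝 0)) :
    ∃ (q : ℕ → ℝ) (Z : ℂ → ℂ), RHSystem q Z ∧ HasZeros Z γ ∧
      ((∀ A : ℕ, ∀ᶠ g : ℕ in atTop, (g : ℝ) ^ A ≤ P g) → ExplicitFormula q γ) ∧
      (∀ D : Finset ℕ, 0 ∈ D → 2 ≤ D.card → ∀ ε : ℝ, 0 < ε → ∃ C : ℝ, ∀ x : ℝ, 2 ≤ x →
        |(patternCount q D x : ℝ) - ∫ u in (2 : ℝ)..x, n D u / Real.log u| ≤ C * x ^ (1 / 2 + ε)) ∧
      (∀ g : ℕ, ∃ n, (g : ℝ) + 1 ≤ q (n + 1) - q n) ∧
      ∀ᶠ g : ℕ in atTop, P g ≤ firstAfter q g ∧ firstAfter q g ≤ P g + 2 * g := by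
  let _ : Dens := dens γ h0
  have _ : DV := dens_DV h0
  obtain ⟨g0, hg0⟩ := ((hpow.and hstep).and (eventually_ge_atTop 8)).exists_forall_of_atTop
  have h8 : 8 ≤ g0 := (hg0 g0 le_rfl).2
  have hPg : ∀ g : ℕ, g0 ≤ g → (g : ℝ) ≤ P g := by
    intro g hg
    have h1 := (hg0 g hg).1.1
    have h2 : (8 : ℝ) ≤ g := by exact_mod_cast h8.trans hg
    have h3 : (g : ℝ) ^ 1 ≤ (g : ℝ) ^ 4 := pow_le_pow_right₀ (by linarith) (by norm_num)
    rw [pow_one] at h3
    linarith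
  obtain ⟨V, hV⟩ := Pool.Agent.H73.KZ.base_gaps (hf_lim hPg hlog)
  obtain ⟨a, S, q, hst, hD, hc, hlaw⟩ := Pool.Agent.H73.KZ.realise0 hn V
  have hq := hst.2.2.2.1
  obtain ⟨N, hN⟩ := eventually_atTop.1 (hV a S q hst (1 / 8) (by norm_num))
  obtain ⟨m, hm1⟩ := exists_nat_gt (q N + 1)
  set g1 := max g0 m with hg1
  have hgP : ∀ g : ℕ, g1 ≤ g → q N + 1 < P g := by
    intro g hg
    have h1 := hPg g ((le_max_left _ _).trans hg)
    have h2 : (m : ℝ) ≤ g := by exact_mod_cast (le_max_right _ _).trans hg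
    linarith
  have H : Hyp q P g1 := by
    refine ⟨hq.1, hq.2.1, h8.trans (le_max_left _ _), ?_, fun g hg => (hg0 g ((le_max_left _ _).trans hg)).1.1,
      fun g hg => (hg0 g ((le_max_left _ _).trans hg)).1.2, fun g hg k h1 h2 => ?_⟩
    · have h1 := hgP g1 le_rfl
      have h2 := hq.1.monotone (Nat.zero_le N)
      linarith
    · have hgg : g0 ≤ g := (le_max_left _ _).trans hg
      have hkN : N ≤ k := by
        by_contra hc
        push Not at hc
        have h3 := hq.1.monotone (Nat.succ_le_of_lt hc)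
        have h4 := hgP g hg
        simp only [Nat.succ_eq_add_one] at h3
        linarith
      have h3 := (hg0 g hgg).1.2
      have h4 : (8 : ℝ) ≤ g := by exact_mod_cast h8.trans hgg
      have h5 := hPg g hgg
      have h6 := hN k hkN (max (P g) (q k / 2)) (le_max_right _ _)
      have h7 : max (P g) (q k / 2) < P (g + 1) := max_lt (by linarith) (by linarith)
      have h9 := hf_le hgg h7
      linarith
  -- the counting
  obtain ⟨C4, hC4⟩ := hc (1 / 4) (by norm_num)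
  have hC40 : 0 ≤ C4 := by
    have h3 := hC4 1 le_rfl
    rw [Real.one_rpow, mul_one] at h3
    exact (abs_nonneg _).trans h3
  have hinc4 : Inc q (1 / 4) (2 * C4) := inc_of (by norm_num) hC40 hC4
  have hmv : Moved q (qd q P g1) := H.moved (by positivity) hinc4
  have hg' : ∀ k : ℕ, (k : ℝ) + 1 ≤ qd q P g1 k := fun k => (hq.2.1 k).trans (H.le_qd k)
  have hI : SmallErr (qd q P g1) := by
    refine smallErr_pow (C := 3 / 2 + 3 * (2 * C4) + C4) H.qd_mono hg' fun x hx => ?_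
    have h1 := H.diff (K := 2 * C4) (δ := 1 / 4) (by positivity) (by norm_num) (by norm_num) hinc4 hmv hx
      (G := x ^ (1 / 4 : ℝ)) (Real.rpow_nonneg (by linarith) _) fun g hg hgx => by
        have h2 := (H.pow g hg).trans hgx
        have h3 : ((g : ℝ) ^ 4) ^ (1 / 4 : ℝ) ≤ x ^ (1 / 4 : ℝ) := Real.rpow_le_rpow (by positivity) h2 (by norm_num)
        rw [← Real.rpow_natCast, ← Real.rpow_mul (Nat.cast_nonneg g)] at h3
        norm_num at h3
        norm_num
        exact h3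
    have h2 := hC4 x hx
    have h3 := abs_sub_le (pc (qd q P g1) x : ℝ) (pc q x : ℝ) (MM x)
    calc _ ≤ _ := h3
      _ ≤ (3 / 2 * x ^ (1 / 4 : ℝ) + 3 * (2 * C4) * x ^ (1 / 4 : ℝ)) + C4 * x ^ (1 / 4 : ℝ) := add_le_add h1 h2
      _ = _ := by ring
  obtain ⟨Z, hZ, hord⟩ := rh_of h0 hm hW H.qd_mono (hq.2.2.1.trans_le (H.le_qd 0)) hg'
    (Pool.Agent.H73.KZ.moved_disc hq.1 hq.2.1 hmv hD) hI
  refine ⟨qd q P g1, Z, hZ, hord, fun hsup => ?_, fun D hD0 hD2 => ?_, fun g => ?_, ?_⟩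
  · -- the explicit formula
    have main : ∀ ε : ℝ, 0 < ε → ε ≤ 1 → ∃ C : ℝ, ∀ x : ℝ, 1 ≤ x → |(pc (qd q P g1) x : ℝ) - MM x| ≤ C * x ^ ε := by
      intro ε hε hε1
      obtain ⟨C, hC⟩ := hc ε hε
      have hC0 : 0 ≤ C := by
        have h3 := hC 1 le_rfl
        rw [Real.one_rpow, mul_one] at h3
        exact (abs_nonneg _).trans h3
      have hinc : Inc q ε (2 * C) := inc_of hε.le hC0 hC
      obtain ⟨A, hA⟩ := exists_nat_gt (1 / ε)
      have hA0 : (0 : ℝ) < A := lt_trans (by positivity) hA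
      obtain ⟨g2, hg2⟩ := eventually_atTop.1 (hsup A)
      refine ⟨3 / 2 * (g2 + 1) + 3 * (2 * C) + C, fun x hx => ?_⟩
      have hx1 : 1 ≤ x ^ ε := Real.one_le_rpow hx hε.le
      have h1 := H.diff (K := 2 * C) (δ := ε) (by positivity) hε.le hε1 hinc hmv hx
        (G := (g2 + 1) * x ^ ε) (by positivity) fun g hg hgx => by
          rcases Nat.lt_or_ge g g2 with h2 | h2
          · have h3 : (g : ℝ) ≤ g2 := by exact_mod_cast h2.le
            nlinarith [Nat.cast_nonneg (α := ℝ) g2]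
          · have h3 := (hg2 g h2).trans hgx
            have h4 : ((g : ℝ) ^ A) ^ ((A : ℝ)⁻¹) ≤ x ^ ((A : ℝ)⁻¹) := Real.rpow_le_rpow (by positivity) h3 (by positivity)
            rw [← Real.rpow_natCast, ← Real.rpow_mul (Nat.cast_nonneg g), mul_inv_cancel₀ hA0.ne', Real.rpow_one] at h4
            have h5 : x ^ ((A : ℝ)⁻¹) ≤ x ^ ε := by
              refine Real.rpow_le_rpow_of_exponent_le hx ?_
              rw [inv_le_comm₀ hA0 hε, ← one_div]
              exact hA.le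
            nlinarith [Nat.cast_nonneg (α := ℝ) g2]
      have h2 := hC x hx
      have h3 := abs_sub_le (pc (qd q P g1) x : ℝ) (pc q x : ℝ) (MM x)
      calc _ ≤ _ := h3
        _ ≤ (3 / 2 * ((g2 + 1) * x ^ ε) + 3 * (2 * C) * x ^ ε) + C * x ^ ε := add_le_add h1 h2
        _ = _ := by ring
    intro ε hε
    obtain ⟨C, hC⟩ := main (min ε 1) (by positivity) (min_le_right _ _)
    refine ⟨C, fun x hx => (hC x hx).trans ?_⟩
    have hC0 : 0 ≤ C := by
      have h3 := hC 1 le_rfl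
      rw [Real.one_rpow, mul_one] at h3
      exact (abs_nonneg _).trans h3
    exact mul_le_mul_of_nonneg_left (Real.rpow_le_rpow_of_exponent_le hx (min_le_left _ _)) hC0
  · exact Pool.Agent.H73.KT.moved_tuples hq.1 hq.2.1 hmv (hlaw D hD0 hD2)
  · obtain ⟨k, hk⟩ := exists_nat_gt (P g1)
    have h1 := (H.first (g := max (max g g1) k) ((le_max_right _ _).trans (le_max_left _ _)) (by
      have : (k : ℝ) ≤ (max (max g g1) k : ℕ) := by exact_mod_cast le_max_right _ _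
      linarith)).2.1
    refine ⟨_, le_trans ?_ h1⟩
    have : (g : ℝ) ≤ (max (max g g1) k : ℕ) := by exact_mod_cast (le_max_left _ _).trans (le_max_left _ _)
    linarith
  · obtain ⟨k, hk⟩ := exists_nat_gt (P g1)
    filter_upwards [eventually_ge_atTop g1, eventually_ge_atTop k] with g h1 h2
    have h3 : (k : ℝ) ≤ g := by exact_mod_cast h2
    obtain ⟨h4, _, h5⟩ := H.first h1 (by linarith)
    have h6 := H.be_le h1
    have h7 := H.be_ge g
    have h8 := H.g8 h1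
    unfold firstAfter
    rw [h4, h5]
    constructor <;> linarith

end Pool.Agent.H49.SZ
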