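import Pool.Agent.H49.SZ.Fs
import Pool.Agent.H49.KZ.BaseP
import Pool.Agent.H73.KP.Gap2

/-!
# Prescribed first occurrences of the gaps, given the zeros, the constellations and the Poisson law of short intervals
-/

set_option autoImplicit false

open MeasureTheory Filter Topology Set Complex

namespace Pool.Agent.H49.SZ

open Pool.Agent.H49.BP (pc lt_pc)
open Pool.Agent.H49.BZ
open Pool.Agent.H73.KT (Laws tc Moved Slow)
open Pool.Agent.H73.KZ (DV Blocks Enum)
open Pool.Agent.H49.SH (firstAfter)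

/-- Systems with prescribed zeros, prescribed laws of the constellations and prescribed first occurrences of the gaps. -/
theorem firstsP {γ : ℕ → ℝ} (h0 : ∀ k, 0 < γ k) (hm : Monotone γ) (hW : Windows γ) {n : Finset ℕ → ℝ → ℝ} (hn : Laws n)
    {P : ℕ → ℝ} (hpow : ∀ᶠ g : ℕ in atTop, (g : ℝ) ^ 4 ≤ P g) (hstep : ∀ᶠ g : ℕ in atTop, P g + 2 * g ≤ P (g + 1))
    (hlog : Tendsto (fun g : ℕ => Real.log (P g) / g) atTop (𝓝 0)) :
    ∃ (q : ℕ → ℝ) (Z : ℂ → ℂ), RHSystem q Z ∧ HasZeros Z γ ∧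
      ((∀ A : ℕ, ∀ᶠ g : ℕ in atTop, (g : ℝ) ^ A ≤ P g) → ExplicitFormula q γ) ∧
      (∀ D : Finset ℕ, 0 ∈ D → 2 ≤ D.card → ∀ ε : ℝ, 0 < ε → ∃ C : ℝ, ∀ x : ℝ, 2 ≤ x →
        |(patternCount q D x : ℝ) - ∫ u in (2 : ℝ)..x, n D u / Real.log u| ≤ C * x ^ (1 / 2 + ε)) ∧
      PoissonLaw q ∧
      (∀ g : ℕ, ∃ n, (g : ℝ) + 1 ≤ q (n + 1) - q n) ∧
      ∀ᶠ g : ℕ in atTop, P g ≤ firstAfter q g ∧ firstAfter q g ≤ P g + 2 * g := by
  let _ : Dens := dens γ h0
  have _ : DV := dens_DV h0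
  obtain ⟨g0, hg0⟩ := ((hpow.and hstep).and (eventually_ge_atTop 8)).exists_forall_of_atTop
  have h8 : 8 ≤ g0 := (hg0 g0 le_rfl).2
  have hPg : ∀ g : ℕ, g0 ≤ g → (g : ℝ) ≤ P g := by
    intro g hg
    have h1 := (hg0 g hg).1.1
    have h2 : (8 : ℝ) ≤ g := by exact_mod_cast h8.trans hg
    have h3 : (g : ℝ) ^ 1 ≤ (g : ℝ) ^ 4 := pow_le_pow_right₀ (by linarith) (by norm_num)
    rw [pow_one] at h3
    linarith
  obtain ⟨V, hV⟩ := Pool.Agent.H73.KP.base_gaps2 (hf_lim hPg hlog)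
  obtain ⟨a, S, q, hst, hD, hc, hlaw, hpoi⟩ := baseP h0 hm hW hn V
  have hq := hst.2.2.2
  obtain ⟨N, hN⟩ := eventually_atTop.1 (hV a S q hst (1 / 8) (by norm_num))
  obtain ⟨m, hm1⟩ := exists_nat_gt (q N + 1)
  set g1 := max g0 m with hg1
  have hgP : ∀ g : ℕ, g1 ≤ g → q N + 1 < P g := by
    intro g hg
    have h1 := hPg g ((le_max_left _ _).trans hg)
    have h2 : (m : ℝ) ≤ g := by exact_mod_cast (le_max_right _ _).trans hg
    linarith
  have H : Hyp q P g1 := by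
    refine ⟨hq.1, hq.2.1, h8.trans (le_max_left _ _), ?_, fun g hg => (hg0 g ((le_max_left _ _).trans hg)).1.1,
      fun g hg => (hg0 g ((le_max_left _ _).trans hg)).1.2, fun g hg k h1 h2 => ?_⟩
    · have h1 := hgP g1 le_rfl
      have h2 := hq.1.monotone (Nat.zero_le N)
      linarith
    · have hgg : g0 ≤ g := (le_max_left _ _).trans hg
      have hkN : N ≤ k := by
        by_contra hc
        push Not at hc
        have h3 := hq.1.monotone (Nat.succ_le_of_lt hc)
        have h4 := hgP g hg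
        simp only [Nat.succ_eq_add_one] at h3
        linarith
      have h3 := (hg0 g hgg).1.2
      have h4 : (8 : ℝ) ≤ g := by exact_mod_cast h8.trans hgg
      have h5 := hPg g hgg
      have h6 := hN k hkN (max (P g) (q k / 2)) (le_max_right _ _)
      have h7 : max (P g) (q k / 2) < P (g + 1) := max_lt (by linarith) (by linarith)
      have h9 := hf_le hgg h7
      linarith
  -- the counting
  obtain ⟨C4, hC4⟩ := hc (1 / 4) (by norm_num)
  have hC40 : 0 ≤ C4 := by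
    have h3 := hC4 1 le_rfl
    rw [Real.one_rpow, mul_one] at h3
    exact (abs_nonneg _).trans h3
  have hinc4 : Inc q (1 / 4) (2 * C4) := inc_of (by norm_num) hC40 hC4
  have hmv : Moved q (qd q P g1) := H.moved (by positivity) hinc4
  have hg' : ∀ k : ℕ, (k : ℝ) + 1 ≤ qd q P g1 k := fun k => (hq.2.1 k).trans (H.le_qd k)
  have hI : SmallErr (qd q P g1) := by
    refine smallErr_pow (C := 3 / 2 + 3 * (2 * C4) + C4) H.qd_mono hg' fun x hx => ?_
    have h1 := H.diff (K := 2 * C4) (δ := 1 / 4) (by positivity) (by norm_num) (by norm_num) hinc4 hmv hx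
      (G := x ^ (1 / 4 : ℝ)) (Real.rpow_nonneg (by linarith) _) fun g hg hgx => by
        have h2 := (H.pow g hg).trans hgx
        have h3 : ((g : ℝ) ^ 4) ^ (1 / 4 : ℝ) ≤ x ^ (1 / 4 : ℝ) := Real.rpow_le_rpow (by positivity) h2 (by norm_num)
        rw [← Real.rpow_natCast, ← Real.rpow_mul (Nat.cast_nonneg g)] at h3
        norm_num at h3
        norm_num
        exact h3
    have h2 := hC4 x hx
    have h3 := abs_sub_le (pc (qd q P g1) x : ℝ) (pc q x : ℝ) (MM x)
    calc _ ≤ _ := h3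
      _ ≤ (3 / 2 * x ^ (1 / 4 : ℝ) + 3 * (2 * C4) * x ^ (1 / 4 : ℝ)) + C4 * x ^ (1 / 4 : ℝ) := add_le_add h1 h2
      _ = _ := by ring
  obtain ⟨Z, hZ, hord⟩ := rh_of h0 hm hW H.qd_mono (hq.2.2.1.trans_le (H.le_qd 0)) hg'
    (Pool.Agent.H73.KZ.moved_disc hq.1 hq.2.1 hmv hD) hI
  refine ⟨qd q P g1, Z, hZ, hord, fun hsup => ?_, fun D hD0 hD2 => ?_, ?_, fun g => ?_, ?_⟩
  · -- the explicit formula
    have main : ∀ ε : ℝ, 0 < ε → ε ≤ 1 → ∃ C : ℝ, ∀ x : ℝ, 1 ≤ x → |(pc (qd q P g1) x : ℝ) - MM x| ≤ C * x ^ ε := by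
      intro ε hε hε1
      obtain ⟨C, hC⟩ := hc ε hε
      have hC0 : 0 ≤ C := by
        have h3 := hC 1 le_rfl
        rw [Real.one_rpow, mul_one] at h3
        exact (abs_nonneg _).trans h3
      have hinc : Inc q ε (2 * C) := inc_of hε.le hC0 hC
      obtain ⟨A, hA⟩ := exists_nat_gt (1 / ε)
      have hA0 : (0 : ℝ) < A := lt_trans (by positivity) hA
      obtain ⟨g2, hg2⟩ := eventually_atTop.1 (hsup A)
      refine ⟨3 / 2 * (g2 + 1) + 3 * (2 * C) + C, fun x hx => ?_⟩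
      have hx1 : 1 ≤ x ^ ε := Real.one_le_rpow hx hε.le
      have h1 := H.diff (K := 2 * C) (δ := ε) (by positivity) hε.le hε1 hinc hmv hx
        (G := (g2 + 1) * x ^ ε) (by positivity) fun g hg hgx => by
          rcases Nat.lt_or_ge g g2 with h2 | h2
          · have h3 : (g : ℝ) ≤ g2 := by exact_mod_cast h2.le
            nlinarith [Nat.cast_nonneg (α := ℝ) g2]
          · have h3 := (hg2 g h2).trans hgx
            have h4 : ((g : ℝ) ^ A) ^ ((A : ℝ)⁻¹) ≤ x ^ ((A : ℝ)⁻¹) := Real.rpow_le_rpow (by positivity) h3 (by positivity)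
            rw [← Real.rpow_natCast, ← Real.rpow_mul (Nat.cast_nonneg g), mul_inv_cancel₀ hA0.ne', Real.rpow_one] at h4
            have h5 : x ^ ((A : ℝ)⁻¹) ≤ x ^ ε := by
              refine Real.rpow_le_rpow_of_exponent_le hx ?_
              rw [inv_le_comm₀ hA0 hε, ← one_div]
              exact hA.le
            nlinarith [Nat.cast_nonneg (α := ℝ) g2]
      have h2 := hC x hx
      have h3 := abs_sub_le (pc (qd q P g1) x : ℝ) (pc q x : ℝ) (MM x)
      calc _ ≤ _ := h3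
        _ ≤ (3 / 2 * ((g2 + 1) * x ^ ε) + 3 * (2 * C) * x ^ ε) + C * x ^ ε := add_le_add h1 h2
        _ = _ := by ring
    intro ε hε
    obtain ⟨C, hC⟩ := main (min ε 1) (by positivity) (min_le_right _ _)
    refine ⟨C, fun x hx => (hC x hx).trans ?_⟩
    have hC0 : 0 ≤ C := by
      have h3 := hC 1 le_rfl
      rw [Real.one_rpow, mul_one] at h3
      exact (abs_nonneg _).trans h3
    exact mul_le_mul_of_nonneg_left (Real.rpow_le_rpow_of_exponent_le hx (min_le_left _ _)) hC0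
  · exact Pool.Agent.H73.KT.moved_tuples hq.1 hq.2.1 hmv (hlaw D hD0 hD2)
  · exact poisson_of H.qd_mono hg' fun l hl k => Pool.Agent.H73.KP.moved_poisson hq.1 hq.2.1 hmv hl k (hpoi l hl k)
  · obtain ⟨k, hk⟩ := exists_nat_gt (P g1)
    have h1 := (H.first (g := max (max g g1) k) ((le_max_right _ _).trans (le_max_left _ _)) (by
      have : (k : ℝ) ≤ (max (max g g1) k : ℕ) := by exact_mod_cast le_max_right _ _
      linarith)).2.1
    refine ⟨_, le_trans ?_ h1⟩
    have : (g : ℝ) ≤ (max (max g g1) k : ℕ) := by exact_mod_cast (le_max_left _ _).trans (le_max_left _ _)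
    linarith
  · obtain ⟨k, hk⟩ := exists_nat_gt (P g1)
    filter_upwards [eventually_ge_atTop g1, eventually_ge_atTop k] with g h1 h2
    have h3 : (k : ℝ) ≤ g := by exact_mod_cast h2
    obtain ⟨h4, _, h5⟩ := H.first h1 (by linarith)
    have h6 := H.be_le h1
    have h7 := H.be_ge g
    have h8 := H.g8 h1
    unfold firstAfter
    rw [h4, h5]
    constructor <;> linarith

end Pool.Agent.H49.SZ
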