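import Pool.Agent.H49.SH.Lims

/-!
# From prescribed first occurrences to the logarithmic scale and to Shanks' law, for any kind of systems
-/

set_option autoImplicit false

open MeasureTheory Filter Topology Set

namespace Pool.Agent.H49.SZ

open Pool.Agent.H49.SH (firstAfter pow_ok psi psi_mono psi_le psi_ge psi_big psi_small limsup_real limsup_top liminf_real)

/-- the first occurrences can be prescribed for the systems with the property `Good` -/
def Presc (Good : (ℕ → ℝ) → Prop) : Prop := ∀ P : ℕ → ℝ, (∀ A : ℕ, ∀ᶠ g : ℕ in atTop, (g : ℝ) ^ A ≤ P g) →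
  (∀ᶠ g : ℕ in atTop, P g + 2 * g ≤ P (g + 1)) → Tendsto (fun g : ℕ => Real.log (P g) / g) atTop (𝓝 0) →
  ∃ q : ℕ → ℝ, Good q ∧ (∀ g : ℕ, ∃ n, (g : ℝ) + 1 ≤ q (n + 1) - q n) ∧
    ∀ᶠ g : ℕ in atTop, P g ≤ firstAfter q g ∧ firstAfter q g ≤ P g + 2 * g

variable {Good : (ℕ → ℝ) → Prop} (hG : Presc Good)

include hG

/-- prescribed first occurrences on the logarithmic scale -/
theorem prescribed_log {κ : ℕ → ℝ} (hm : Monotone κ) (h1 : Tendsto (fun g : ℕ => κ g / Real.log g) atTop atTop)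
    (h2 : Tendsto (fun g : ℕ => κ g / g) atTop (𝓝 0)) :
    ∃ q : ℕ → ℝ, Good q ∧ (∀ g : ℕ, ∃ n, (g : ℝ) + 1 ≤ q (n + 1) - q n) ∧
      Tendsto (fun g : ℕ => Real.log (firstAfter q g) / κ g) atTop (𝓝 1) := by
  have hlogtop : Tendsto (fun g : ℕ => Real.log g) atTop atTop :=
    Real.tendsto_log_atTop.comp tendsto_natCast_atTop_atTop
  have hpos : ∀ᶠ g : ℕ in atTop, 1 ≤ κ g := by
    filter_upwards [h1.eventually (eventually_ge_atTop 1), hlogtop.eventually (eventually_ge_atTop 1)] with g h3 h4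
    rw [le_div_iff₀ (by linarith)] at h3
    linarith
  have hg : ∀ᶠ g : ℕ in atTop, (1 : ℝ) ≤ g := by
    filter_upwards [eventually_ge_atTop 1] with g hg
    exact_mod_cast hg
  obtain ⟨q, hq1, hq2, hq3⟩ := hG (fun g : ℕ => ((g : ℝ) + 1) ^ 5 * Real.exp (κ g)) (by
    intro A
    filter_upwards [h1.eventually (eventually_ge_atTop (A : ℝ)), hlogtop.eventually (eventually_ge_atTop 1), hg]
      with g h3 h4 h5
    rw [le_div_iff₀ (by linarith)] at h3
    have h6 : (g : ℝ) ^ A ≤ Real.exp (κ g) := by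
      rw [← Real.log_le_iff_le_exp (by positivity), Real.log_pow]
      exact h3
    have h7 : (1 : ℝ) ≤ ((g : ℝ) + 1) ^ 5 := one_le_pow₀ (by linarith)
    exact h6.trans (le_mul_of_one_le_left (Real.exp_pos _).le h7)) (by
    filter_upwards [hpos, hg] with g h3 h4
    have h5 : 1 ≤ Real.exp (κ g) := Real.one_le_exp (by linarith)
    have h6 : Real.exp (κ g) ≤ Real.exp (κ (g + 1)) := Real.exp_le_exp.2 (hm (Nat.le_succ g))
    push_cast
    have h7 : 2 * (g : ℝ) ≤ ((g : ℝ) + 1 + 1) ^ 5 - ((g : ℝ) + 1) ^ 5 := by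
      have h8 : 0 ≤ (g : ℝ) := by linarith
      have h9 : ((g : ℝ) + 1 + 1) ^ 5 - ((g : ℝ) + 1) ^ 5 = 5 * (g + 1) ^ 4 + 10 * (g + 1) ^ 3 + 10 * (g + 1) ^ 2 + 5 * (g + 1) + 1 := by
        ring
      rw [h9]
      have : 0 ≤ ((g : ℝ) + 1) ^ 4 := by positivity
      have : 0 ≤ ((g : ℝ) + 1) ^ 3 := by positivity
      have : 0 ≤ ((g : ℝ) + 1) ^ 2 := by positivity
      linarith
    have h8 : (((g : ℝ) + 1 + 1) ^ 5 - ((g : ℝ) + 1) ^ 5) * 1 ≤
        (((g : ℝ) + 1 + 1) ^ 5 - ((g : ℝ) + 1) ^ 5) * Real.exp (κ g) :=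
      mul_le_mul_of_nonneg_left h5 (by linarith)
    have h9 : ((g : ℝ) + 1 + 1) ^ 5 * Real.exp (κ g) ≤ ((g : ℝ) + 1 + 1) ^ 5 * Real.exp (κ (g + 1)) :=
      mul_le_mul_of_nonneg_left h6 (by positivity)
    linarith) (by
    have h3 : Tendsto (fun g : ℕ => 5 * (Real.log ((g : ℝ) + 1) / g) + κ g / g) atTop (𝓝 (5 * 0 + 0)) := by
      refine (Tendsto.const_mul 5 ?_).add h2
      have h4 : Tendsto (fun x : ℝ => Real.log x / (1 * x + -1)) atTop (𝓝 0) := by
        simpa using Real.tendsto_pow_log_div_mul_add_atTop 1 (-1) 1 one_ne_zero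
      have h5 := h4.comp (tendsto_atTop_add_const_right _ (1 : ℝ) (tendsto_natCast_atTop_atTop (R := ℝ)))
      refine h5.congr fun g => ?_
      simp only [Function.comp]
      congr 1
      ring
    rw [mul_zero, add_zero] at h3
    refine h3.congr fun g => ?_
    rw [Real.log_mul (by positivity) (Real.exp_pos _).ne', Real.log_exp, Real.log_pow]
    push_cast
    ring)
  refine ⟨q, hq1, hq2, ?_⟩
  have hlim : Tendsto (fun g : ℕ => 11 * (κ g / Real.log g)⁻¹) atTop (𝓝 (11 * 0)) :=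
    h1.inv_tendsto_atTop.const_mul 11
  rw [mul_zero] at hlim
  rw [tendsto_iff_norm_sub_tendsto_zero]
  refine squeeze_zero' (Eventually.of_forall fun g => norm_nonneg _) ?_ hlim
  filter_upwards [hq3, hpos, hlogtop.eventually (eventually_ge_atTop 1), eventually_ge_atTop 2] with g h3 h4 h5 h6
  obtain ⟨h7, h8⟩ := h3
  have hg2 : (2 : ℝ) ≤ g := by exact_mod_cast h6
  have hE : 1 ≤ Real.exp (κ g) := Real.one_le_exp (by linarith)
  have hP : 2 * (g : ℝ) ≤ ((g : ℝ) + 1) ^ 5 * Real.exp (κ g) := by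
    have h9 : ((g : ℝ) + 1) ^ 2 ≤ ((g : ℝ) + 1) ^ 5 := pow_le_pow_right₀ (by linarith) (by norm_num)
    have h10 : ((g : ℝ) + 1) ^ 5 ≤ ((g : ℝ) + 1) ^ 5 * Real.exp (κ g) := le_mul_of_one_le_right (by positivity) hE
    nlinarith
  have hP0 : 0 < ((g : ℝ) + 1) ^ 5 * Real.exp (κ g) := by positivity
  have hlow := Real.log_le_log hP0 h7
  have hupp := Real.log_le_log (by linarith) (h8.trans (show _ ≤ 2 * (((g : ℝ) + 1) ^ 5 * Real.exp (κ g)) by linarith))
  rw [Real.log_mul (by norm_num) hP0.ne'] at hupp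
  rw [Real.log_mul (by positivity) (Real.exp_pos _).ne', Real.log_exp, Real.log_pow] at hlow hupp
  push_cast at hlow hupp
  have h9 : Real.log ((g : ℝ) + 1) ≤ 2 * Real.log g := by
    have h10 : (g : ℝ) + 1 ≤ (g : ℝ) ^ 2 := by nlinarith
    have := Real.log_le_log (by linarith) h10
    rw [Real.log_pow] at this
    push_cast at this
    exact this
  have h10 : 0 ≤ Real.log ((g : ℝ) + 1) := Real.log_nonneg (by linarith)
  have h11 := Real.log_two_lt_d9
  have hk : 0 < κ g := by linarith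
  have e : Real.log (firstAfter q g) / κ g - 1 = (Real.log (firstAfter q g) - κ g) / κ g := by
    field_simp
  rw [e, norm_div, Real.norm_eq_abs, Real.norm_of_nonneg hk.le, inv_div, mul_div_assoc', abs_of_nonneg (by linarith)]
  refine div_le_div_of_nonneg_right ?_ hk.le
  linarith

/-- every constant in Shanks' law -/
theorem shanks {L : EReal} (hL : 0 ≤ L) :
    ∃ q : ℕ → ℝ, Good q ∧ (∀ g : ℕ, ∃ n, (g : ℝ) + 1 ≤ q (n + 1) - q n) ∧
      Tendsto (fun g : ℕ => ((Real.log (firstAfter q g) / √g : ℝ) : EReal)) atTop (𝓝 L) := by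
  have main : ∀ A α : ℝ, 0 < A → 0 < α → α < 1 → ∃ q : ℕ → ℝ, Good q ∧
      (∀ g : ℕ, ∃ n, (g : ℝ) + 1 ≤ q (n + 1) - q n) ∧
      ∃ f : ℕ → ℝ, Tendsto f atTop (𝓝 1) ∧ ∀ᶠ g : ℕ in atTop,
        Real.log (firstAfter q g) / √g = f g * (A * (g : ℝ) ^ (α - 1 / 2)) := by
    intro A α hA h0 h1
    obtain ⟨hm, h2, h3⟩ := pow_ok hA h0 h1
    obtain ⟨q, hq1, hq2, hq3⟩ := prescribed_log hG hm h2 h3
    refine ⟨q, hq1, hq2, _, hq3, ?_⟩
    filter_upwards [eventually_gt_atTop 0] with g hg
    have hg' : (0 : ℝ) < g := by exact_mod_cast hg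
    rw [Real.rpow_sub hg', ← Real.sqrt_eq_rpow]
    have h4 : 0 < (g : ℝ) ^ α := Real.rpow_pos_of_pos hg' _
    have h5 : 0 < √(g : ℝ) := Real.sqrt_pos.2 hg'
    field_simp
  induction L using EReal.rec with
  | bot => simp at hL
  | top =>
    obtain ⟨q, hq1, hq2, f, hf1, hf2⟩ := main 1 (3 / 4) one_pos (by norm_num) (by norm_num)
    refine ⟨q, hq1, hq2, ?_⟩
    have h1 : Tendsto (fun g : ℕ => 1 * (g : ℝ) ^ (3 / 4 - 1 / 2 : ℝ)) atTop atTop := by
      simp only [one_mul]
      exact (tendsto_rpow_atTop (by norm_num)).comp tendsto_natCast_atTop_atTop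
    have h2 := (hf1.pos_mul_atTop one_pos h1).congr' (hf2.mono fun g hg => hg.symm)
    exact EReal.tendsto_coe_nhds_top_iff.2 h2
  | coe l =>
    have hl0 : 0 ≤ l := by exact_mod_cast hL
    rcases eq_or_lt_of_le hl0 with h0 | h0
    · subst h0
      obtain ⟨q, hq1, hq2, f, hf1, hf2⟩ := main 1 (1 / 4) one_pos (by norm_num) (by norm_num)
      refine ⟨q, hq1, hq2, ?_⟩
      have h1 : Tendsto (fun g : ℕ => 1 * (g : ℝ) ^ (1 / 4 - 1 / 2 : ℝ)) atTop (𝓝 0) := by
        simp only [one_mul]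
        have := (tendsto_rpow_neg_atTop (show (0 : ℝ) < 1 / 4 by norm_num)).comp (tendsto_natCast_atTop_atTop (R := ℝ))
        refine this.congr fun g => ?_
        simp only [Function.comp]
        norm_num
      have h2 := (hf1.mul h1).congr' (hf2.mono fun g hg => hg.symm)
      rw [one_mul] at h2
      exact EReal.tendsto_coe.2 h2
    · obtain ⟨q, hq1, hq2, f, hf1, hf2⟩ := main l (1 / 2) h0 (by norm_num) (by norm_num)
      refine ⟨q, hq1, hq2, ?_⟩
      have h1 : Tendsto (fun g : ℕ => l * (g : ℝ) ^ (1 / 2 - 1 / 2 : ℝ)) atTop (𝓝 l) := by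
        simp
      have h2 := (hf1.mul h1).congr' (hf2.mono fun g hg => hg.symm)
      rw [one_mul] at h2
      exact EReal.tendsto_coe.2 h2

/-- the lower and the upper limit -/
theorem shanks_pair {a b : EReal} (ha : 0 ≤ a) (hab : a ≤ b) :
    ∃ q : ℕ → ℝ, Good q ∧ (∀ g : ℕ, ∃ n, (g : ℝ) + 1 ≤ q (n + 1) - q n) ∧
      liminf (fun g : ℕ => ((Real.log (firstAfter q g) / √g : ℝ) : EReal)) atTop = a ∧
      limsup (fun g : ℕ => ((Real.log (firstAfter q g) / √g : ℝ) : EReal)) atTop = b := by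
  rcases eq_or_lt_of_le hab with heq | hlt
  · obtain ⟨q, hq1, hq2, hq3⟩ := shanks hG ha
    exact ⟨q, hq1, hq2, hq3.liminf_eq, heq ▸ hq3.limsup_eq⟩
  obtain ⟨a', rfl⟩ : ∃ a' : ℝ, a = (a' : EReal) := by
    lift a to ℝ using ⟨ne_top_of_lt hlt, fun h => by rw [h] at ha; simp at ha⟩
    exact ⟨a, rfl⟩
  have ha' : 0 ≤ a' := by exact_mod_cast ha
  -- the general case
  have core : ∀ κ : ℕ → ℝ, Monotone κ → (∀ᶠ g : ℕ in atTop, κ g ≤ a' * √g + psi g) →
      (∃ c : ℝ, 0 < c ∧ ∀ᶠ g : ℕ in atTop, c * (g : ℝ) ^ (1 / 4 : ℝ) ≤ κ g) → (∀ᶠ g : ℕ in atTop, a' * √g ≤ κ g) →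
      ∃ q : ℕ → ℝ, Good q ∧ (∀ g : ℕ, ∃ n, (g : ℝ) + 1 ≤ q (n + 1) - q n) ∧
      liminf (fun g : ℕ => ((Real.log (firstAfter q g) / √g : ℝ) : EReal)) atTop = (a' : EReal) ∧
      ∃ f : ℕ → ℝ, Tendsto f atTop (𝓝 1) ∧ ∀ᶠ g : ℕ in atTop, Real.log (firstAfter q g) / √g = f g * (κ g / √g) := by
    intro κ hm hup hlow hge
    obtain ⟨c, hc, hclow⟩ := hlow
    have h1 : Tendsto (fun g : ℕ => κ g / Real.log g) atTop atTop := by
      refine tendsto_atTop_mono' _ ?_ (pow_ok (L := c) (α := 1 / 4) hc (by norm_num) (by norm_num)).2.1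
      filter_upwards [hclow, eventually_ge_atTop 1] with g h2 h3
      have : (1 : ℝ) ≤ g := by exact_mod_cast h3
      exact div_le_div_of_nonneg_right h2 (Real.log_nonneg this)
    have h2 : Tendsto (fun g : ℕ => κ g / g) atTop (𝓝 0) := by
      have h3 : Tendsto (fun g : ℕ => (a' + 1) * (g : ℝ) ^ (5 / 8 : ℝ) / g) atTop (𝓝 0) :=
        (pow_ok (L := a' + 1) (α := 5 / 8) (by linarith) (by norm_num) (by norm_num)).2.2
      refine squeeze_zero' ?_ ?_ h3
      · filter_upwards [hge] with g h4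
        have : 0 ≤ κ g := le_trans (by positivity) h4
        positivity
      · filter_upwards [hup, eventually_ge_atTop 2] with g h4 h5
        have h6 : (2 : ℝ) ≤ g := by exact_mod_cast h5
        refine div_le_div_of_nonneg_right (h4.trans ?_) (by linarith)
        have h7 := psi_le h5
        have h8 : √(g : ℝ) ≤ (g : ℝ) ^ (5 / 8 : ℝ) := by
          rw [Real.sqrt_eq_rpow]
          exact Real.rpow_le_rpow_of_exponent_le (by linarith) (by norm_num)
        have := mul_le_mul_of_nonneg_left h8 ha'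
        linarith
    obtain ⟨q, hq1, hq2, hq3⟩ := prescribed_log hG hm h1 h2
    have hid : ∀ᶠ g : ℕ in atTop, Real.log (firstAfter q g) / √g = (Real.log (firstAfter q g) / κ g) * (κ g / √g) := by
      filter_upwards [hclow, eventually_gt_atTop 0] with g h3 h4
      have h5 : (0 : ℝ) < g := by exact_mod_cast h4
      have h6 : 0 < κ g := lt_of_lt_of_le (by positivity) h3
      have h7 : 0 < √(g : ℝ) := Real.sqrt_pos.2 h5
      field_simp
    refine ⟨q, hq1, hq2, ?_, _, hq3, hid⟩
    refine liminf_real (fun ε hε => ?_) (fun ε hε => ?_)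
    · have h3 : Tendsto (fun g : ℕ => (Real.log (firstAfter q g) / κ g) * a') atTop (𝓝 (1 * a')) := hq3.mul_const a'
      rw [one_mul] at h3
      filter_upwards [hid, h3.eventually (lt_mem_nhds (show a' - ε < a' by linarith)), hge, eventually_gt_atTop 0,
        hq3.eventually (lt_mem_nhds (show (0 : ℝ) < 1 by norm_num))] with g h4 h5 h6 h7 h8
      have h9 : (0 : ℝ) < g := by exact_mod_cast h7
      have h10 : 0 < √(g : ℝ) := Real.sqrt_pos.2 h9
      have h11 : a' ≤ κ g / √g := by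
        rw [le_div_iff₀ h10]
        exact h6
      rw [h4]
      exact h5.le.trans (mul_le_mul_of_nonneg_left h11 h8.le)
    · have h3 : Tendsto (fun g : ℕ => (Real.log (firstAfter q g) / κ g) * (a' + ε / 2)) atTop (𝓝 (1 * (a' + ε / 2))) :=
        hq3.mul_const _
      rw [one_mul] at h3
      refine ((psi_small (show 0 < ε / 2 by linarith)).and_eventually (hid.and ((h3.eventually
        (gt_mem_nhds (show a' + ε / 2 < a' + ε by linarith))).and (hup.and ((eventually_gt_atTop 0).and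
        (hq3.eventually (lt_mem_nhds (show (0 : ℝ) < 1 by norm_num)))))))).mono fun g hg => ?_
      obtain ⟨h4, h5, h6, h7, h8, h9⟩ := hg
      have h10 : (0 : ℝ) < g := by exact_mod_cast h8
      have h11 : 0 < √(g : ℝ) := Real.sqrt_pos.2 h10
      have h12 : κ g / √g ≤ a' + ε / 2 := by
        have h13 : κ g / √g ≤ (a' * √g + psi g) / √g := div_le_div_of_nonneg_right h7 h11.le
        have e : (a' * √g + psi g) / √g = a' + psi g / √g := by
          field_simp
        linarith
      rw [h5]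
      exact (mul_le_mul_of_nonneg_left h12 h9.le).trans h6.le
  induction b using EReal.rec with
  | bot => simp at hlt
  | top =>
    obtain ⟨q, hq1, hq2, hq3, f, hf1, hf2⟩ := core (fun g => max (a' * √g) (psi g)) (by
        intro x y hxy
        have h1 : √(x : ℝ) ≤ √(y : ℝ) := Real.sqrt_le_sqrt (by exact_mod_cast hxy)
        exact max_le_max (mul_le_mul_of_nonneg_left h1 ha') (psi_mono hxy)) (by
        filter_upwards with g
        have h1 : 0 ≤ a' * √g := by positivity
        have h2 : 0 ≤ psi g := by unfold psi; positivity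
        exact max_le (by linarith) (by linarith)) ⟨1 / 2, by norm_num, by
        filter_upwards [eventually_ge_atTop 2] with g hg
        have := psi_ge hg
        exact le_trans (by linarith) (le_max_right _ _)⟩ (by
        filter_upwards with g
        exact le_max_left _ _)
    refine ⟨q, hq1, hq2, hq3, limsup_top fun K => ?_⟩
    refine ((psi_big (2 * |K|)).and_eventually (hf2.and (hf1.eventually
      (lt_mem_nhds (show (1 / 2 : ℝ) < 1 by norm_num))))).mono fun g hg => ?_
    obtain ⟨h1, h2, h3⟩ := hg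
    rw [h2]
    have h4 : psi g / √g ≤ max (a' * √g) (psi g) / √g :=
      div_le_div_of_nonneg_right (le_max_right _ _) (Real.sqrt_nonneg _)
    have h5 := le_abs_self K
    have h6 := abs_nonneg K
    have h7 : 2 * |K| ≤ max (a' * √g) (psi g) / √g := h1.trans h4
    nlinarith
  | coe b' =>
    have hb' : a' < b' := EReal.coe_lt_coe_iff.1 hlt
    have hb0 : 0 < b' := by linarith
    obtain ⟨q, hq1, hq2, hq3, f, hf1, hf2⟩ := core (fun g => max (a' * √g) (min (b' * √g) (psi g))) (by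
        intro x y hxy
        have h1 : √(x : ℝ) ≤ √(y : ℝ) := Real.sqrt_le_sqrt (by exact_mod_cast hxy)
        exact max_le_max (mul_le_mul_of_nonneg_left h1 ha') (min_le_min (mul_le_mul_of_nonneg_left h1 hb0.le)
          (psi_mono hxy))) (by
        filter_upwards with g
        have h1 : 0 ≤ a' * √g := by positivity
        have h2 : 0 ≤ psi g := by unfold psi; positivity
        exact max_le (by linarith) ((min_le_right _ _).trans (by linarith))) ⟨min b' (1 / 2), by positivity, by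
        filter_upwards [eventually_ge_atTop 2] with g hg
        have hg2 : (2 : ℝ) ≤ g := by exact_mod_cast hg
        have h1 := psi_ge hg
        have h2 : (g : ℝ) ^ (1 / 4 : ℝ) ≤ √g := by
          rw [Real.sqrt_eq_rpow]
          exact Real.rpow_le_rpow_of_exponent_le (by linarith) (by norm_num)
        have h3 : 0 ≤ (g : ℝ) ^ (1 / 4 : ℝ) := by positivity
        refine le_trans (le_min ?_ ?_) (le_max_right _ _)
        · calc min b' (1 / 2) * (g : ℝ) ^ (1 / 4 : ℝ) ≤ b' * (g : ℝ) ^ (1 / 4 : ℝ) :=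
                mul_le_mul_of_nonneg_right (min_le_left _ _) h3
            _ ≤ b' * √g := mul_le_mul_of_nonneg_left h2 hb0.le
        · calc min b' (1 / 2) * (g : ℝ) ^ (1 / 4 : ℝ) ≤ 1 / 2 * (g : ℝ) ^ (1 / 4 : ℝ) :=
                mul_le_mul_of_nonneg_right (min_le_right _ _) h3
            _ ≤ psi g := by linarith⟩ (by
        filter_upwards with g
        exact le_max_left _ _)
    refine ⟨q, hq1, hq2, hq3, limsup_real (fun ε hε => ?_) (fun ε hε => ?_)⟩
    · have h3 : Tendsto (fun g : ℕ => f g * b') atTop (𝓝 (1 * b')) := hf1.mul_const _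
      rw [one_mul] at h3
      filter_upwards [hf2, h3.eventually (gt_mem_nhds (show b' < b' + ε by linarith)), eventually_gt_atTop 0,
        hf1.eventually (lt_mem_nhds (show (0 : ℝ) < 1 by norm_num))] with g h4 h5 h6 h7
      have h8 : (0 : ℝ) < g := by exact_mod_cast h6
      have h9 : 0 < √(g : ℝ) := Real.sqrt_pos.2 h8
      have h10 : max (a' * √g) (min (b' * √g) (psi g)) / √g ≤ b' := by
        rw [div_le_iff₀ h9]
        exact max_le (mul_le_mul_of_nonneg_right hb'.le h9.le) (min_le_left _ _)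
      rw [h4]
      exact (mul_le_mul_of_nonneg_left h10 h7.le).trans h5.le
    · have h3 : Tendsto (fun g : ℕ => f g * b') atTop (𝓝 (1 * b')) := hf1.mul_const _
      rw [one_mul] at h3
      refine ((psi_big b').and_eventually (hf2.and ((h3.eventually (lt_mem_nhds (show b' - ε < b' by linarith))).and
        ((eventually_gt_atTop 0).and (hf1.eventually (lt_mem_nhds (show (0 : ℝ) < 1 by norm_num))))))).mono fun g hg => ?_
      obtain ⟨h4, h5, h6, h7, h8⟩ := hg
      have h9 : (0 : ℝ) < g := by exact_mod_cast h7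
      have h10 : 0 < √(g : ℝ) := Real.sqrt_pos.2 h9
      rw [le_div_iff₀ h10] at h4
      have h11 : b' ≤ max (a' * √g) (min (b' * √g) (psi g)) / √g := by
        rw [le_div_iff₀ h10]
        exact le_trans (le_min le_rfl h4) (le_max_right _ _)
      rw [h5]
      exact h6.le.trans (mul_le_mul_of_nonneg_left h11 h8.le)

end Pool.Agent.H49.SZ
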